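import Mathlib

-- merged part: Pool.Agent.Work.MP_11e589_an.Proj
section
/-!
Norm one projections in weakly compactly generated spaces (Amir and Lindenstrauss), obtained by a
closing-off argument.
-/

set_option autoImplicit false

universe u

open Filter Topology Set Cardinal

namespace Pool.Agent.Work.MP_11e589_an

section closure

variable {E : Type u}

/-- One step of the closing-off. -/
def step (φ : Finset E → Set E) (S : Set E) : Set E :=
  S ∪ ⋃ F : Finset E, ⋃ _ : (↑F : Set E) ⊆ S, φ F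

/-- The closure of `S` under the finitary operations `φ`. -/
def cl (φ : Finset E → Set E) (S : Set E) : Set E := ⋃ n : ℕ, (step φ)^[n] S

lemma step_mono (φ : Finset E → Set E) : Monotone (step φ) := by
  intro S T h x hx
  rcases hx with hx | hx
  · exact Or.inl (h hx)
  · simp only [mem_iUnion] at hx
    obtain ⟨F, hF, hx⟩ := hx
    exact Or.inr (mem_iUnion.2 ⟨F, mem_iUnion.2 ⟨hF.trans h, hx⟩⟩)

lemma cl_mono (φ : Finset E → Set E) : Monotone (cl φ) := fun _ _ h =>
  iUnion_mono (fun n => (step_mono φ).iterate n h)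

lemma subset_cl (φ : Finset E → Set E) (S : Set E) : S ⊆ cl φ S :=
  subset_iUnion (fun n : ℕ => (step φ)^[n] S) 0

lemma iterate_mono (φ : Finset E → Set E) (S : Set E) : Monotone (fun n => (step φ)^[n] S) := by
  refine monotone_nat_of_le_succ (fun n => ?_)
  rw [Function.iterate_succ_apply']
  exact subset_union_left

lemma cl_closed (φ : Finset E → Set E) (S : Set E) (F : Finset E) (hF : (↑F : Set E) ⊆ cl φ S) :
    φ F ⊆ cl φ S := by
  obtain ⟨n, hn⟩ : ∃ n, (↑F : Set E) ⊆ (step φ)^[n] S := by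
    classical
    induction F using Finset.induction_on with
    | empty => exact ⟨0, by simp⟩
    | insert a F _ ih =>
      rw [Finset.coe_insert, insert_subset_iff] at hF
      obtain ⟨n, hn⟩ := ih hF.2
      obtain ⟨m, hm⟩ := mem_iUnion.1 hF.1
      refine ⟨max n m, ?_⟩
      rw [Finset.coe_insert, insert_subset_iff]
      exact ⟨iterate_mono φ S (le_max_right n m) hm, hn.trans (iterate_mono φ S (le_max_left n m))⟩
  refine Subset.trans ?_ (subset_iUnion (fun n : ℕ => (step φ)^[n] S) (n + 1))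
  rw [Function.iterate_succ_apply']
  intro x hx
  exact Or.inr (mem_iUnion.2 ⟨F, mem_iUnion.2 ⟨hn, hx⟩⟩)

lemma mk_step_le (φ : Finset E → Set E) (hφ : ∀ F, (φ F).Countable) {μ : Cardinal}
    (hμ : ℵ₀ ≤ μ) {S : Set E} (hS : #S ≤ μ) : #(step φ S) ≤ μ := by
  classical
  have h1 : (⋃ F : Finset E, ⋃ _ : (↑F : Set E) ⊆ S, φ F) ⊆
      ⋃ l : List S, φ (l.map Subtype.val).toFinset := by
    intro x hx
    simp only [mem_iUnion] at hx ⊢
    obtain ⟨F, hF, hx⟩ := hx
    refine ⟨(F.subtype (· ∈ S)).toList, ?_⟩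
    convert hx
    ext a
    simp only [List.mem_toFinset, List.mem_map, Finset.mem_toList, Finset.mem_subtype]
    constructor
    · rintro ⟨b, hb, rfl⟩; exact hb
    · intro ha; exact ⟨⟨a, hF ha⟩, ha, rfl⟩
  have h2 : #(⋃ l : List S, φ (l.map Subtype.val).toFinset) ≤ μ := by
    refine (mk_iUnion_le _).trans ?_
    have h3 : #(List S) ≤ μ := (mk_list_le_max S).trans (max_le hμ hS)
    have h4 : ⨆ l : List S, #(φ (l.map Subtype.val).toFinset) ≤ μ :=
      ciSup_le' (fun l => (le_aleph0_iff_set_countable.2 (hφ _)).trans hμ)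
    calc _ ≤ μ * μ := mul_le_mul' h3 h4
      _ = μ := mul_eq_self hμ
  calc #(step φ S) ≤ #S + #(⋃ F : Finset E, ⋃ _ : (↑F : Set E) ⊆ S, φ F) := mk_union_le _ _
    _ ≤ μ + μ := add_le_add hS ((mk_le_mk_of_subset h1).trans h2)
    _ = μ := add_eq_self hμ

lemma mk_cl_le (φ : Finset E → Set E) (hφ : ∀ F, (φ F).Countable) {μ : Cardinal}
    (hμ : ℵ₀ ≤ μ) {S : Set E} (hS : #S ≤ μ) : #(cl φ S) ≤ μ := by
  have h : ∀ n, #((step φ)^[n] S) ≤ μ := by
    intro n
    induction n with
    | zero => exact hS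
    | succ n ih => rw [Function.iterate_succ_apply']; exact mk_step_le φ hφ hμ ih
  have h1 := mk_iUnion_le_lift (fun n : ℕ => (step φ)^[n] S)
  simp only [lift_uzero, mk_eq_aleph0, lift_aleph0] at h1
  refine h1.trans ?_
  calc _ ≤ μ * μ := mul_le_mul' hμ (ciSup_le' h)
    _ = μ := mul_eq_self hμ

end closure

variable {X : Type u} [NormedAddCommGroup X] [NormedSpace ℝ X]

lemma mem_of_forall_dual (W : Submodule ℝ X) (hW : IsClosed (W : Set X)) (a : X)
    (h : ∀ f : X →L[ℝ] ℝ, (∀ w ∈ W, f w = 0) → f a = 0) : a ∈ W := by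
  by_contra ha
  obtain ⟨f, u, h1, h2⟩ := geometric_hahn_banach_closed_point W.convex hW ha
  have h0 : 0 < u := by simpa using h1 0 W.zero_mem
  have h3 : ∀ w ∈ W, f w = 0 := by
    intro w hw
    by_contra hne
    have := h1 ((u / f w) • w) (W.smul_mem _ hw)
    rw [map_smul, smul_eq_mul, div_mul_cancel₀ _ hne] at this
    exact lt_irrefl _ this
  rw [h f h3] at h2
  linarith

lemma weak_limit {K : Set X} (hK : IsCompact ((toWeakSpace ℝ X) '' K)) {ι : Type*}
    (u : Ultrafilter ι) (x : ι → X) (hx : ∀ i, x i ∈ K) :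
    ∃ a ∈ K, ∀ f : X →L[ℝ] ℝ, Tendsto (fun i => f (x i)) u (𝓝 (f a)) := by
  obtain ⟨b, ⟨a, ha, rfl⟩, hb⟩ := hK.ultrafilter_le_nhds
    (u.map (fun i => toWeakSpace ℝ X (x i))) (by
      rw [Ultrafilter.coe_map, le_principal_iff, mem_map]
      exact Eventually.of_forall (fun i => ⟨x i, hx i, rfl⟩))
  refine ⟨a, ha, fun f => ?_⟩
  have hc : Continuous (fun y : WeakSpace ℝ X => f ((toWeakSpace ℝ X).symm y)) :=
    WeakBilin.eval_continuous (topDualPairing ℝ X).flip f
  exact (hc.tendsto _).comp hb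

lemma exists_proj [CompleteSpace X] (W N : Submodule ℝ X) (hW : IsClosed (W : Set X))
    (hN : IsClosed (N : Set X)) (h : ∀ w ∈ W, ∀ y ∈ N, ‖w‖ ≤ ‖w + y‖)
    (hd : Dense ((W ⊔ N : Submodule ℝ X) : Set X)) :
    ∃ P : X →L[ℝ] X, (∀ x, P x ∈ W) ∧ (∀ x, x - P x ∈ N) ∧ ∀ x, ‖P x‖ ≤ ‖x‖ := by
  have hex : ∀ x, ∃ w ∈ W, x - w ∈ N := by
    intro x
    obtain ⟨z, hz, hlim⟩ := mem_closure_iff_seq_limit.1 (hd x)
    choose w hw y hy hwy using fun n => Submodule.mem_sup.1 (hz n)
    have hc : CauchySeq w := by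
      have hzc := hlim.cauchySeq
      rw [Metric.cauchySeq_iff] at hzc ⊢
      intro ε hε
      obtain ⟨M, hM⟩ := hzc ε hε
      refine ⟨M, fun m hm n hn => lt_of_le_of_lt ?_ (hM m hm n hn)⟩
      rw [dist_eq_norm, dist_eq_norm, ← hwy m, ← hwy n]
      have := h _ (W.sub_mem (hw m) (hw n)) _ (N.sub_mem (hy m) (hy n))
      have e : w m + y m - (w n + y n) = w m - w n + (y m - y n) := by abel
      rw [e]
      exact this
    obtain ⟨a, ha⟩ := cauchySeq_tendsto_of_complete hc
    refine ⟨a, hW.mem_of_tendsto ha (Eventually.of_forall hw), ?_⟩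
    refine hN.mem_of_tendsto (hlim.sub ha) (Eventually.of_forall (fun n => ?_))
    rw [← hwy n, add_sub_cancel_left]
    exact hy n
  choose p hpW hpN using hex
  have huniq : ∀ x w, w ∈ W → x - w ∈ N → p x = w := by
    intro x w hw hx
    have := h _ (W.sub_mem (hpW x) hw) _ (N.sub_mem (hpN x) hx)
    have e : p x - w + (x - p x - (x - w)) = 0 := by abel
    rw [e, norm_zero, norm_le_zero_iff, sub_eq_zero] at this
    exact this
  have hbound : ∀ x, ‖p x‖ ≤ ‖x‖ := fun x => by simpa using h _ (hpW x) _ (hpN x)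
  let L : X →ₗ[ℝ] X :=
    { toFun := p
      map_add' := fun x y => huniq _ _ (W.add_mem (hpW x) (hpW y)) (by
        have := N.add_mem (hpN x) (hpN y)
        convert this using 1; abel)
      map_smul' := fun c x => huniq _ _ (W.smul_mem c (hpW x)) (by
        have := N.smul_mem c (hpN x)
        rwa [smul_sub] at this) }
  exact ⟨L.mkContinuous 1 (fun x => by rw [one_mul]; exact hbound x), hpW, hpN, hbound⟩

lemma exists_countable_span (F : Finset X) : ∃ C : Set X, C.Countable ∧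
    ((Submodule.span ℝ (↑F : Set X) : Submodule ℝ X) : Set X) ⊆ closure C :=
  (F.finite_toSet.isSeparable).span

lemma exists_countable_approx (K : Set X) (G : Finset (X →L[ℝ] ℝ)) : ∃ D ⊆ K, D.Countable ∧
    ∀ k ∈ K, ∀ ε > 0, ∃ k' ∈ D, ∀ g ∈ G, |g k' - g k| < ε := by
  let Φ : X → (G → ℝ) := fun x g => g.1 x
  obtain ⟨t, ht, htc, hcl⟩ :=
    (TopologicalSpace.IsSeparable.of_separableSpace (Φ '' K)).exists_countable_dense_subset
  choose! σ hσK hσ using fun y (hy : y ∈ t) => ht hy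
  refine ⟨σ '' t, by rintro _ ⟨y, hy, rfl⟩; exact hσK y hy, htc.image σ, fun k hk ε hε => ?_⟩
  obtain ⟨y, hy, hd⟩ := Metric.mem_closure_iff.1 (hcl ⟨k, hk, rfl⟩) ε hε
  refine ⟨σ y, ⟨y, hy, rfl⟩, fun g hg => ?_⟩
  have h1 := (dist_le_pi_dist (Φ k) y ⟨g, hg⟩).trans_lt hd
  rw [← hσ y hy, Real.dist_eq, abs_sub_comm] at h1
  exact h1

/-- The family of projections attached to the subsets of `X`. -/
theorem exists_family [CompleteSpace X] {K : Set X} (hK : IsCompact ((toWeakSpace ℝ X) '' K))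
    (hd : Dense ((Submodule.span ℝ K : Submodule ℝ X) : Set X)) :
    ∃ (A : Set X → Set X) (B : Set X → Set (X →L[ℝ] ℝ)) (P : Set X → X →L[ℝ] X),
      Monotone A ∧ Monotone B ∧ (∀ S, S ⊆ A S) ∧
      (∀ (S : Set X) (μ : Cardinal), ℵ₀ ≤ μ → #S ≤ μ → #(A S) ≤ μ ∧ #(B S) ≤ μ) ∧
      (∀ S x, P S x ∈ (Submodule.span ℝ (A S)).topologicalClosure) ∧
      (∀ S x, ∀ g ∈ B S, g (P S x) = g x) ∧
      (∀ S x, ‖P S x‖ ≤ ‖x‖) ∧
      (∀ S, ∀ w ∈ (Submodule.span ℝ (A S)).topologicalClosure, P S w = w) ∧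
      (∀ S y, (∀ g ∈ B S, g y = 0) → P S y = 0) ∧
      (∀ S, ∀ k ∈ K, P S k ∈ K) := by
  classical
  choose C hCc hC using exists_countable_span (X := X)
  choose D hDK hDc hD using exists_countable_approx K
  choose nf hnf1 hnf2 using fun x : X => exists_dual_vector'' ℝ x
  let φ : Finset (X ⊕ (X →L[ℝ] ℝ)) → Set (X ⊕ (X →L[ℝ] ℝ)) := fun F =>
    Sum.inl '' D F.toRight ∪ Sum.inr '' (nf '' C F.toLeft)
  have hφ : ∀ F, (φ F).Countable := fun F =>
    ((hDc _).image _).union (((hCc _).image _).image _)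
  let A : Set X → Set X := fun S => Sum.inl ⁻¹' cl φ (Sum.inl '' S)
  let B : Set X → Set (X →L[ℝ] ℝ) := fun S => Sum.inr ⁻¹' cl φ (Sum.inl '' S)
  let W : Set X → Submodule ℝ X := fun S => (Submodule.span ℝ (A S)).topologicalClosure
  let N : Set X → Submodule ℝ X := fun S => ⨅ g ∈ B S, LinearMap.ker (g : X →ₗ[ℝ] ℝ)
  have hN : ∀ S y, y ∈ N S ↔ ∀ g ∈ B S, g y = 0 := fun S y => by simp [N]
  have hNc : ∀ S, IsClosed (N S : Set X) := by
    intro S
    have : (N S : Set X) = ⋂ g ∈ B S, {y | g y = 0} := by ext y; simp [hN]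
    rw [this]
    exact isClosed_biInter (fun g _ => isClosed_eq g.continuous continuous_const)
  have hWc : ∀ S, IsClosed (W S : Set X) := fun S => Submodule.isClosed_topologicalClosure _
  have hnorm : ∀ S, ∀ w ∈ W S, ∀ y ∈ N S, ‖w‖ ≤ ‖w + y‖ := by
    intro S w hw y hy
    have hcl : IsClosed {z : X | ‖z‖ ≤ ‖z + y‖} :=
      isClosed_le continuous_norm (by fun_prop)
    refine hcl.closure_subset_iff.2 (fun z hz => ?_) hw
    obtain ⟨F, hF, hzF⟩ := Submodule.mem_span_finite_of_mem_span hz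
    refine hcl.closure_subset_iff.2 (fun c hc => ?_) (hC F hzF)
    have h1 : nf c ∈ B S := by
      refine cl_closed φ _ (F.map ⟨Sum.inl, Sum.inl_injective⟩) ?_ (Or.inr ⟨nf c, ⟨c, ?_, rfl⟩, rfl⟩)
      · intro a ha
        simp only [Finset.coe_map, Function.Embedding.coeFn_mk, mem_image] at ha
        obtain ⟨b, hb, rfl⟩ := ha
        exact hF hb
      · convert hc
        ext a; simp
    have h2 : nf c (c + y) = ‖c‖ := by
      rw [map_add, (hN S y).1 hy _ h1, add_zero]; simpa using hnf2 c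
    calc ‖c‖ = nf c (c + y) := h2.symm
      _ ≤ ‖nf c (c + y)‖ := le_abs_self _
      _ ≤ ‖nf c‖ * ‖c + y‖ := (nf c).le_opNorm _
      _ ≤ 1 * ‖c + y‖ := by gcongr; exact hnf1 c
      _ = ‖c + y‖ := one_mul _
  have hKW : ∀ S, ∀ k ∈ K, ∃ w ∈ K, w ∈ W S ∧ k - w ∈ N S := by
    intro S k hk
    have h1 : ∀ i : Finset (B S) × ℕ, ∃ k' ∈ K, k' ∈ A S ∧
        ∀ g ∈ i.1, |g.1 k' - g.1 k| < 1 / ((i.2 : ℝ) + 1) := by
      rintro ⟨G, n⟩
      obtain ⟨k', hk', h⟩ := hD (G.image Subtype.val) k hk (1 / ((n : ℝ) + 1)) (by positivity)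
      refine ⟨k', hDK _ hk', ?_, fun g hg => h _ (Finset.mem_image_of_mem _ hg)⟩
      refine cl_closed φ _ ((G.image Subtype.val).map ⟨Sum.inr, Sum.inr_injective⟩) ?_
        (Or.inl ⟨k', ?_, rfl⟩)
      · intro a ha
        simp only [Finset.coe_map, Function.Embedding.coeFn_mk, mem_image, Finset.coe_image] at ha
        obtain ⟨_, ⟨b, -, rfl⟩, rfl⟩ := ha
        exact b.2
      · convert hk'
        ext a; simp
    choose x hxK hxA hx using h1
    obtain ⟨a, ha, hlim⟩ := weak_limit hK (Ultrafilter.of atTop) x hxK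
    refine ⟨a, ha, mem_of_forall_dual _ (hWc S) a (fun f hf => ?_), (hN S _).2 (fun g hg => ?_)⟩
    · have h2 : (fun i => f (x i)) = fun _ => 0 := funext (fun i => hf _
        (Submodule.le_topologicalClosure _ (Submodule.subset_span (hxA i))))
      have h3 := hlim f
      rw [h2] at h3
      exact (tendsto_nhds_unique tendsto_const_nhds h3).symm
    · have h2 : Tendsto (fun i => g (x i)) atTop (𝓝 (g k)) := by
        rw [Metric.tendsto_atTop]
        intro ε hε
        obtain ⟨n, hn⟩ := exists_nat_one_div_lt hε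
        refine ⟨({⟨g, hg⟩}, n), fun i hi => ?_⟩
        have h3 := hx i ⟨g, hg⟩ (hi.1 (Finset.mem_singleton_self _))
        rw [Real.dist_eq]
        refine h3.trans_le (le_trans ?_ hn.le)
        have : (n : ℝ) ≤ i.2 := by exact_mod_cast hi.2
        gcongr
      have h4 := tendsto_nhds_unique (h2.mono_left (Ultrafilter.of_le _)) (hlim g)
      rw [map_sub, h4, sub_self]
  have hdense : ∀ S, Dense ((W S ⊔ N S : Submodule ℝ X) : Set X) := by
    intro S
    refine hd.mono (Submodule.span_le.2 (fun k hk => ?_))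
    obtain ⟨w, -, hw, hkw⟩ := hKW S k hk
    exact Submodule.mem_sup.2 ⟨w, hw, k - w, hkw, by abel⟩
  choose P hP1 hP2 hP3 using fun S => exists_proj (W S) (N S) (hWc S) (hNc S) (hnorm S) (hdense S)
  have huniq : ∀ S x w, w ∈ W S → x - w ∈ N S → P S x = w := by
    intro S x w hw hx
    have := hnorm S _ ((W S).sub_mem (hP1 S x) hw) _ ((N S).sub_mem (hP2 S x) hx)
    have e : P S x - w + (x - P S x - (x - w)) = 0 := by abel
    rw [e, norm_zero, norm_le_zero_iff, sub_eq_zero] at this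
    exact this
  refine ⟨A, B, P, fun S T h => preimage_mono (cl_mono φ (image_mono h)),
    fun S T h => preimage_mono (cl_mono φ (image_mono h)),
    fun S x hx => subset_cl φ _ ⟨x, hx, rfl⟩, fun S μ hμ hS => ?_, hP1, fun S x g hg => ?_, hP3,
    fun S w hw => huniq S w w hw (by simp), fun S y hy => huniq S y 0 (W S).zero_mem
      (by simpa using (hN S y).2 hy), fun S k hk => ?_⟩
  · have h1 : #(cl φ (Sum.inl '' S)) ≤ μ := mk_cl_le φ hφ hμ (mk_image_le.trans hS)
    exact ⟨(mk_preimage_of_injective _ _ Sum.inl_injective).trans h1,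
      (mk_preimage_of_injective _ _ Sum.inr_injective).trans h1⟩
  · have := (hN S _).1 (hP2 S x) g hg
    rw [map_sub, sub_eq_zero] at this
    exact this.symm
  · obtain ⟨w, hwK, hw, hkw⟩ := hKW S k hk
    rw [huniq S k w hw hkw]
    exact hwK

end Pool.Agent.Work.MP_11e589_an
end

-- merged part: Pool.Agent.Work.MP_11e589_an.Chain
section
/-!
A long chain of projections together with a long biorthogonal system that goes to the tails.
-/

set_option autoImplicit false

universe u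

open Filter Topology Set Cardinal

namespace Pool.Agent.Work.MP_11e589_an

variable {X : Type u} [NormedAddCommGroup X] [NormedSpace ℝ X]

lemma exists_rec {ι α : Type u} [LinearOrder ι] [WellFoundedLT ι] (step : ι → Set α → α) :
    ∃ k : ι → α, ∀ i, k i = step i (k '' Iio i) := by
  let F : (i : ι) → ((j : ι) → j < i → α) → α := fun i ih =>
    step i {a | ∃ j, ∃ h : j < i, ih j h = a}
  refine ⟨(wellFounded_lt (α := ι)).fix F, fun i => ?_⟩
  rw [WellFounded.fix_eq]
  simp only [F]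
  congr 1
  ext a
  simp [mem_image]

theorem exists_chain [CompleteSpace X] (hns : ¬ TopologicalSpace.SeparableSpace X) {K : Set X}
    (hK : IsCompact ((toWeakSpace ℝ X) '' K))
    (hd : Dense ((Submodule.span ℝ K : Submodule ℝ X) : Set X)) :
    ∃ (ι : Type u) (_ : LinearOrder ι) (_ : Infinite ι) (P : ι → X →L[ℝ] X) (x : ι → X)
      (f : ι → X →L[ℝ] ℝ),
      (∀ i z, ‖P i z‖ ≤ ‖z‖) ∧
      (∀ i j, i ≤ j → ∀ z, P i (P j z) = P i z ∧ P j (P i z) = P i z) ∧
      (∀ z, ∀ ε > 0, ∃ i, ∀ j, i ≤ j → ‖z - P j z‖ ≤ ε) ∧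
      (∀ i, ‖x i‖ ≤ 1) ∧ (∀ i z, |f i z| ≤ 2 * ‖z‖) ∧ (∀ i, f i (x i) = 1) ∧
      (∀ i j, i ≠ j → f i (x j) = 0) ∧
      (∀ (S : X →L[ℝ] X) (j : ι), #{i | P j (S (x i)) ≠ 0} < #ι) := by
  classical
  obtain ⟨A, B, P, hA, hB, hSA, hcard, hPW, hPB, hPn, hPfix, hPker, hPK⟩ := exists_family hK hd
  set W : Set X → Submodule ℝ X := fun S => (Submodule.span ℝ (A S)).topologicalClosure with hW
  have hWmono : Monotone W := fun S T h =>
    Submodule.topologicalClosure_mono (Submodule.span_mono (hA h))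
  have hWc : ∀ S, IsClosed (W S : Set X) := fun S => Submodule.isClosed_topologicalClosure _
  have hSW : ∀ S : Set X, S ⊆ (W S : Set X) := fun S a ha =>
    Submodule.le_topologicalClosure _ (Submodule.subset_span (hSA S ha))
  have hcomm : ∀ S T, S ⊆ T → ∀ z, P S (P T z) = P S z ∧ P T (P S z) = P S z := by
    intro S T h z
    refine ⟨?_, hPfix T _ (hWmono h (hPW S z))⟩
    have : P S (P T z - z) = 0 := hPker S _ (fun g hg => by
      rw [map_sub, hPB T z g (hB h hg), sub_self])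
    rwa [map_sub, sub_eq_zero] at this
  -- a set with dense span of minimal cardinality
  obtain ⟨D, hD, hmin⟩ : ∃ D : Set X, Dense ((Submodule.span ℝ D : Submodule ℝ X) : Set X) ∧
      ∀ D' : Set X, Dense ((Submodule.span ℝ D' : Submodule ℝ X) : Set X) → #D ≤ #D' := by
    obtain ⟨c, ⟨D, hD, rfl⟩, hc⟩ := (wellFounded_lt (α := Cardinal.{u})).has_min
      {c | ∃ D : Set X, Dense ((Submodule.span ℝ D : Submodule ℝ X) : Set X) ∧ #D = c}
      ⟨_, K, hd, rfl⟩
    exact ⟨D, hD, fun D' hD' => not_lt.1 (hc _ ⟨D', hD', rfl⟩)⟩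
  have hunc : ℵ₀ < #D := by
    by_contra h
    have hc : D.Countable := le_aleph0_iff_set_countable.1 (not_lt.1 h)
    apply hns
    rw [← TopologicalSpace.isSeparable_univ_iff, ← hD.closure_eq]
    exact (hc.isSeparable.span (R := ℝ)).closure
  obtain ⟨_, _, hord⟩ := Cardinal.exists_ord_eq_type_lt D
  have : Infinite D := infinite_iff.2 hunc.le
  have hIio : ∀ i : D, #(Iio i) < #D := fun i => Cardinal.mk_Iio_lt i hord
  have hIic : ∀ i : D, #(Iic i) < #D := fun i => by
    rw [← Iio_insert]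
    exact mk_insert_le.trans_lt (add_lt_of_lt hunc.le (hIio i) (one_lt_aleph0.trans hunc))
  have hsmall : ∀ S : Set X, #S < #D → #(A S) < #D ∧ #(B S) < #D := by
    intro S hS
    obtain ⟨h1, h2⟩ := hcard S (max ℵ₀ #S) (le_max_left _ _) (le_max_right _ _)
    exact ⟨h1.trans_lt (max_lt hunc hS), h2.trans_lt (max_lt hunc hS)⟩
  have hnew : ∀ S : Set X, #S < #D → ∃ k ∈ K, k ∉ W S := by
    intro S hS
    by_contra h
    push Not at h
    have h1 : Submodule.span ℝ K ≤ W S := Submodule.span_le.2 h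
    have h2 : Dense ((Submodule.span ℝ (A S) : Submodule ℝ X) : Set X) := by
      have h3 : Dense (W S : Set X) := hd.mono h1
      rw [hW] at h3
      simp only [Submodule.topologicalClosure_coe] at h3
      exact h3.of_closure
    exact absurd (hmin _ h2) (not_le.2 (hsmall S hS).1)
  choose! nw hnwK hnw using hnew
  obtain ⟨k, hk⟩ := exists_rec (ι := D) (α := X)
    (fun i T => nw (Subtype.val '' Iio i ∪ T))
  let S : Set D → Set X := fun I => Subtype.val '' I ∪ k '' I
  have hSmono : Monotone S := fun I J h => union_subset_union (image_mono h) (image_mono h)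
  have hScard : ∀ I : Set D, #I < #D → #(S I) < #D := fun I hI =>
    (mk_union_le _ _).trans_lt (add_lt_of_lt hunc.le (mk_image_le.trans_lt hI)
      (mk_image_le.trans_lt hI))
  have hkK : ∀ i, k i ∈ K := fun i => by rw [hk i]; exact hnwK _ (hScard _ (hIio i))
  have hkW : ∀ i, k i ∉ W (S (Iio i)) := fun i => by
    have := hnw _ (hScard _ (hIio i))
    rwa [← hk i] at this
  let y : D → X := fun i => k i - P (S (Iio i)) (k i)
  have hy0 : ∀ i, ‖y i‖ ≠ 0 := fun i h => by
    rw [norm_eq_zero, sub_eq_zero] at h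
    exact hkW i (h ▸ hPW _ _)
  have hyW : ∀ i, y i ∈ W (S (Iic i)) := fun i =>
    (W _).sub_mem (hSW _ (Or.inr ⟨i, le_rfl, rfl⟩))
      (hWmono (hSmono Iio_subset_Iic_self) (hPW _ _))
  have hyP : ∀ i (I : Set D), I ⊆ Iio i → P (S I) (y i) = 0 := fun i I hI => by
    simp only [y]
    rw [map_sub, (hcomm _ _ (hSmono hI) _).1, sub_self]
  have hyB : ∀ i (I : Set D), I ⊆ Iio i → ∀ g ∈ B (S I), g (y i) = 0 := fun i I hI g hg => by
    rw [← hPB _ _ g hg, hyP i I hI, map_zero]
  -- every functional vanishes on all but countably many `y i`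
  have hcount : ∀ g : X →L[ℝ] ℝ, {i | g (y i) ≠ 0}.Countable := by
    intro g
    have hfin : ∀ ε > 0, {i | ε ≤ |g (y i)|}.Finite := by
      intro ε hε
      by_contra hinf
      have hinf' : {i | ε ≤ |g (y i)|}.Infinite := hinf
      obtain ⟨φ, hφ⟩ := (wellQuasiOrdered_le (α := D)).exists_monotone_subseq
        (fun n => (hinf'.natEmbedding _ n : D))
      let ξ : ℕ → D := fun n => hinf'.natEmbedding _ (φ n)
      have hξm : Monotone ξ := fun m n h => hφ m n h
      have hξi : Function.Injective ξ := fun m n h =>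
        φ.injective ((hinf'.natEmbedding _).injective (Subtype.ext h))
      have hξ : StrictMono ξ := hξm.strictMono_of_injective hξi
      have hξε : ∀ n, ε ≤ |g (y (ξ n))| := fun n => (hinf'.natEmbedding _ (φ n)).2
      let u : Ultrafilter ℕ := Ultrafilter.of atTop
      have hu : (u : Filter ℕ) ≤ atTop := Ultrafilter.of_le _
      obtain ⟨a, -, ha⟩ := weak_limit hK u (fun n => k (ξ n)) (fun n => hkK _)
      obtain ⟨b, -, hb⟩ := weak_limit hK u (fun n => P (S (Iio (ξ n))) (k (ξ n)))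
        (fun n => hPK _ _ (hkK _))
      have hlim : ∀ f : X →L[ℝ] ℝ, Tendsto (fun n => f (y (ξ n))) u (𝓝 (f (a - b))) := by
        intro f
        simpa only [y, map_sub] using (ha f).sub (hb f)
      have h1 : ε ≤ |g (a - b)| := ge_of_tendsto (hlim g).abs (Eventually.of_forall hξε)
      have h2 : ∀ n, P (S (Iic (ξ n))) (a - b) = 0 := by
        intro n
        refine hPker _ _ (fun f hf => ?_)
        refine tendsto_nhds_unique (hlim f) (tendsto_const_nhds.congr' ?_)
        filter_upwards [hu (eventually_gt_atTop n)] with m hm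
        exact (hyB _ _ (Iic_subset_Iio.2 (hξ hm)) f hf).symm
      let V : Submodule ℝ X := ⨆ n, W (S (Iic (ξ n)))
      have h3 : a - b ∈ V.topologicalClosure := by
        refine mem_of_forall_dual _ (Submodule.isClosed_topologicalClosure _) _ (fun f hf => ?_)
        refine tendsto_nhds_unique (hlim f) (tendsto_const_nhds.congr (fun n => ?_))
        exact (hf _ (Submodule.le_topologicalClosure _
          (Submodule.mem_iSup_of_mem n (hyW _)))).symm
      have hcl : IsClosed {z : X | ‖z‖ ≤ ‖z - (a - b)‖} :=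
        isClosed_le continuous_norm (by fun_prop)
      have h4 : a - b ∈ {z : X | ‖z‖ ≤ ‖z - (a - b)‖} := by
        refine hcl.closure_subset_iff.2 (fun z hz => ?_) h3
        obtain ⟨n, hn⟩ := (Submodule.mem_iSup_of_directed _ (Monotone.directed_le
          (fun m n h => hWmono (hSmono (Iic_subset_Iic.2 (hξm h)))))).1 hz
        have := hPn (S (Iic (ξ n))) (z - (a - b))
        rwa [map_sub, h2 n, sub_zero, hPfix _ _ hn] at this
      simp only [mem_ofPred_eq, sub_self, norm_zero, norm_le_zero_iff] at h4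
      rw [h4, map_zero, abs_zero] at h1
      linarith
    have : {i | g (y i) ≠ 0} ⊆ ⋃ n : ℕ, {i | 1 / ((n : ℝ) + 1) ≤ |g (y i)|} := by
      intro i hi
      obtain ⟨n, hn⟩ := exists_nat_one_div_lt (abs_pos.2 hi)
      exact mem_iUnion.2 ⟨n, hn.le⟩
    exact (countable_iUnion (fun n => (hfin _ (by positivity)).countable)).mono this
  choose g hg1 hg2 using fun i => exists_dual_vector ℝ (y i) (hy0 i)
  refine ⟨D, inferInstance, inferInstance, fun i => P (S (Iic i)), fun i => ‖y i‖⁻¹ • y i,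
    fun i => (g i).comp (P (S (Iic i)) - P (S (Iio i))), fun i z => hPn _ z,
    fun i j h z => hcomm _ _ (hSmono (Iic_subset_Iic.2 h)) z, fun z ε hε => ?_, fun i => ?_,
    fun i z => ?_, fun i => ?_, fun i j hij => ?_, fun T j => ?_⟩
  · obtain ⟨w, hw, hzw⟩ := Metric.mem_closure_iff.1 (hD z) (ε / 2) (half_pos hε)
    have h1 : Submodule.span ℝ D ≤ ⨆ i : D, W (S (Iic i)) := Submodule.span_le.2 (fun a ha =>
      Submodule.mem_iSup_of_mem (⟨a, ha⟩ : D) (hSW _ (Or.inl ⟨⟨a, ha⟩, le_rfl, rfl⟩)))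
    obtain ⟨i, hi⟩ := (Submodule.mem_iSup_of_directed _ (Monotone.directed_le
      (fun m n h => hWmono (hSmono (Iic_subset_Iic.2 h))))).1 (h1 hw)
    refine ⟨i, fun j hj => ?_⟩
    have h2 : P (S (Iic j)) w = w := hPfix _ _ (hWmono (hSmono (Iic_subset_Iic.2 hj)) hi)
    have h3 : z - P (S (Iic j)) z = (z - w) - P (S (Iic j)) (z - w) := by
      rw [map_sub, h2]; abel
    rw [dist_eq_norm] at hzw
    rw [h3]
    have := norm_sub_le (z - w) (P (S (Iic j)) (z - w))
    have := hPn (S (Iic j)) (z - w)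
    linarith
  · rw [norm_smul, norm_inv, norm_norm, inv_mul_cancel₀ (hy0 i)]
  · have h1 := (g i).le_opNorm (P (S (Iic i)) z - P (S (Iio i)) z)
    have h2 := norm_sub_le (P (S (Iic i)) z) (P (S (Iio i)) z)
    have h3 := hPn (S (Iic i)) z
    have h4 := hPn (S (Iio i)) z
    rw [hg1, one_mul, Real.norm_eq_abs] at h1
    simp only [ContinuousLinearMap.comp_apply, sub_apply]
    linarith
  · simp only [ContinuousLinearMap.comp_apply, sub_apply, map_smul, smul_eq_mul]
    rw [hPfix _ _ (hyW i), hyP i _ subset_rfl, sub_zero, hg2]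
    exact inv_mul_cancel₀ (hy0 i)
  · simp only [ContinuousLinearMap.comp_apply, sub_apply, map_smul, smul_eq_mul]
    rcases lt_or_gt_of_ne hij with h | h
    · rw [hyP j _ (Iic_subset_Iio.2 h), hyP j _ (Iio_subset_Iio h.le), sub_self, map_zero,
        mul_zero]
    · rw [hPfix _ _ (hWmono (hSmono (Iic_subset_Iic.2 h.le)) (hyW j)),
        hPfix _ _ (hWmono (hSmono (Iic_subset_Iio.2 h)) (hyW j)), sub_self, map_zero, mul_zero]
  · have h1 : {i | P (S (Iic j)) (T (‖y i‖⁻¹ • y i)) ≠ 0} ⊆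
        ⋃ h : B (S (Iic j)), {i | (h.1.comp T) (y i) ≠ 0} := by
      intro i hi
      by_contra hcon
      simp only [mem_iUnion, mem_ofPred_eq, not_exists, not_not] at hcon
      refine hi (hPker _ _ (fun h hh => ?_))
      have := hcon ⟨h, hh⟩
      rw [ContinuousLinearMap.comp_apply] at this
      rw [map_smul, map_smul, this, smul_zero]
    refine (mk_le_mk_of_subset h1).trans_lt ((mk_iUnion_le _).trans_lt ?_)
    refine mul_lt_of_lt hunc.le (hsmall _ (hScard _ (hIic j))).2 (lt_of_le_of_lt ?_ hunc)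
    exact ciSup_le' (fun h => le_aleph0_iff_set_countable.2 (hcount _))

end Pool.Agent.Work.MP_11e589_an
end

-- merged part: Pool.Agent.Work.MP_11e589_an.Game
section
/-!
Two renormings of a nonseparable weakly compactly generated space at large Banach-Mazur distance.
In the first norm, sequences running through the blocks of the chain of projections are almost
invariant under `n` changes of sign; in the second one, every branch of a tree of height `n` that
goes to the tails behaves like the summing basis.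
-/

set_option autoImplicit false

universe u

open Filter Topology Set Cardinal

namespace Pool.Agent.Work.MP_11e589_an

variable {X : Type u} [NormedAddCommGroup X] [NormedSpace ℝ X]

/-- A copy of a type, without its norm. -/
def Syn (X : Type u) : Type u := X

instance : AddCommGroup (Syn X) := inferInstanceAs (AddCommGroup X)

instance : Module ℝ (Syn X) := inferInstanceAs (Module ℝ X)

lemma exists_renorm {ι : Type u} (q : ι → Seminorm ℝ X) (a b : ℝ) (i₀ : ι)
    (ha : ∀ x, ‖x‖ ≤ a * q i₀ x) (ha0 : 0 ≤ a) (hb : ∀ i x, q i x ≤ b * ‖x‖) :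
    ∃ (Y : Type u) (_ : NormedAddCommGroup Y) (_ : NormedSpace ℝ Y) (e : X ≃L[ℝ] Y),
      (∀ i x, q i x ≤ ‖e x‖) ∧ (∀ x c, (∀ i, q i x ≤ c) → ‖e x‖ ≤ c) := by
  have : Nonempty ι := ⟨i₀⟩
  have hbdd : ∀ x, BddAbove (range fun i => q i x) := fun x =>
    ⟨b * ‖x‖, by rintro _ ⟨i, rfl⟩; exact hb i x⟩
  let p : X → ℝ := fun x => ⨆ i, q i x
  have hp1 : ∀ i x, q i x ≤ p x := fun i x => le_ciSup (hbdd x) i
  have hp2 : ∀ x c, (∀ i, q i x ≤ c) → p x ≤ c := fun x c h => ciSup_le h
  let N : AddGroupNorm (Syn X) :=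
    { toFun := p
      map_zero' := le_antisymm (hp2 _ _ (fun i => (map_zero (q i)).le))
        ((apply_nonneg (q i₀) _).trans (hp1 i₀ _))
      add_le' := fun x y => hp2 _ _ (fun i => (map_add_le_add (q i) x y).trans
        (add_le_add (hp1 i x) (hp1 i y)))
      neg' := fun x => by
        have : ∀ i, q i (-(show X from x)) = q i x := fun i => map_neg_eq_map (q i) _
        exact congrArg iSup (funext this)
      eq_zero_of_map_eq_zero' := fun x hx => by
        have h1 := (ha x).trans (mul_le_mul_of_nonneg_left (hp1 i₀ x) ha0)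
        have h2 : p x = 0 := hx
        rw [h2, mul_zero] at h1
        exact norm_le_zero_iff.1 h1 }
  letI : NormedAddCommGroup (Syn X) := N.toNormedAddCommGroup
  letI : NormedSpace ℝ (Syn X) :=
    { norm_smul_le := fun c x => hp2 _ _ (fun i => by
        have h := map_smul_eq_mul (q i) c (show X from x)
        exact h.le.trans (mul_le_mul_of_nonneg_left (hp1 i x) (norm_nonneg c))) }
  let L : X ≃ₗ[ℝ] Syn X := LinearEquiv.refl ℝ X
  refine ⟨Syn X, inferInstance, inferInstance, L.toContinuousLinearEquivOfBounds b a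
    (fun x => hp2 _ _ (fun i => hb i x))
    (fun x => (ha x).trans (mul_le_mul_of_nonneg_left (hp1 i₀ x) ha0)), hp1, hp2⟩

section signs

variable {ι : Type u} [LinearOrder ι]

/-- Products of the sign changes `1 - 2 P i`. -/
noncomputable def U (P : ι → X →L[ℝ] X) (l : List ι) : X →L[ℝ] X :=
  (l.map (fun i => 1 - (2 : ℝ) • P i)).prod

lemma U_nil (P : ι → X →L[ℝ] X) : U P [] = 1 := rfl

lemma U_cons (P : ι → X →L[ℝ] X) (i : ι) (l : List ι) (z : X) :
    U P (i :: l) z = U P l z - (2 : ℝ) • P i (U P l z) := by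
  simp [U]

lemma U_append (P : ι → X →L[ℝ] X) (l l' : List ι) (z : X) :
    U P (l ++ l') z = U P l (U P l' z) := by
  simp [U]

variable {P : ι → X →L[ℝ] X}

lemma U_perm (hc : ∀ i j, i ≤ j → ∀ z, P i (P j z) = P i z ∧ P j (P i z) = P i z)
    {l l' : List ι} (h : l.Perm l') : U P l = U P l' := by
  refine (h.map _).prod_eq' ?_
  rw [List.pairwise_map]
  refine List.pairwise_of_forall (fun i j => ?_)
  have h1 : Commute (P i) (P j) := by
    ext z
    rcases le_total i j with h | h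
    · exact (hc i j h z).1.trans (hc i j h z).2.symm
    · exact (hc j i h z).2.trans (hc j i h z).1.symm
  exact (Commute.one_left _).sub_left ((Commute.one_right _).sub_right
    ((h1.smul_left _).smul_right _))

lemma U_bound (hn : ∀ i z, ‖P i z‖ ≤ ‖z‖)
    (hc : ∀ i j, i ≤ j → ∀ z, P i (P j z) = P i z ∧ P j (P i z) = P i z) (n : ℕ) :
    ∀ l : List ι, l.length = n → ∀ z, ‖U P l z - z‖ ≤ 2 * n * ‖z‖ ∧
      ∀ j, (∀ i ∈ l, i ≤ j) → P j (U P l z - z) = U P l z - z := by
  induction n with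
  | zero =>
    intro l hl z
    rw [List.length_eq_zero_iff] at hl
    subst hl
    simp [U_nil]
  | succ n ih =>
    intro l hl z
    classical
    have hne : l.toFinset.Nonempty := by
      rw [List.toFinset_nonempty_iff]; rintro rfl; simp at hl
    obtain ⟨m, hm, hmax⟩ := l.toFinset.exists_max_image id hne
    rw [List.mem_toFinset] at hm
    have hlen : (l.erase m).length = n := by rw [List.length_erase_of_mem hm, hl]; rfl
    obtain ⟨h1, h2⟩ := ih _ hlen z
    have h3 := h2 m (fun i hi => hmax i (List.mem_toFinset.2 (List.mem_of_mem_erase hi)))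
    have e : U P l z - z = -(U P (l.erase m) z - z) - (2 : ℝ) • P m z := by
      rw [U_perm hc (List.perm_cons_erase hm), U_cons]
      have : P m (U P (l.erase m) z) = (U P (l.erase m) z - z) + P m z := by
        rw [← h3, map_sub]; abel
      rw [this, two_smul, two_smul]; abel
    rw [e]
    constructor
    · have h4 := norm_sub_le (-(U P (l.erase m) z - z)) ((2 : ℝ) • P m z)
      rw [norm_neg, norm_smul, Real.norm_two] at h4
      have h5 := hn m z
      push_cast
      linarith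
    · intro j hj
      rw [map_sub, map_neg, map_smul, (hc m j (hj m hm) z).2,
        h2 j (fun i hi => hj i (List.mem_of_mem_erase hi))]

lemma U_fix {l : List ι} {z : X} (h : ∀ i ∈ l, P i z = 0) : U P l z = z := by
  induction l with
  | nil => rfl
  | cons i l ih =>
    rw [U_cons, ih (fun j hj => h j (List.mem_cons_of_mem _ hj)), h i List.mem_cons_self]
    simp

lemma exists_norm_one (hn : ∀ i z, ‖P i z‖ ≤ ‖z‖)
    (hc : ∀ i j, i ≤ j → ∀ z, P i (P j z) = P i z ∧ P j (P i z) = P i z) (n : ℕ) :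
    ∃ (Z : Type u) (_ : NormedAddCommGroup Z) (_ : NormedSpace ℝ Z) (e : X ≃L[ℝ] Z),
      ∀ l : List ι, l.length = n → ∀ z, ‖e (U P l z)‖ ≤ 2 * ‖e z‖ := by
  set θ : ℝ := 1 - 1 / (2 * (n + 1)) with hθ
  have hn0 : (0 : ℝ) ≤ n := Nat.cast_nonneg n
  have hδ0 : 0 < 1 / (2 * ((n : ℝ) + 1)) := by positivity
  have hδ1 : 1 / (2 * ((n : ℝ) + 1)) ≤ 1 / 2 := by
    apply one_div_le_one_div_of_le <;> linarith
  have hθ0 : 0 < θ := by linarith
  have hθ1 : θ < 1 := by linarith
  have hθn : 1 / 2 ≤ θ ^ n := by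
    have h1 := one_add_mul_le_pow (a := -(1 / (2 * ((n : ℝ) + 1)))) (by linarith) n
    have h2 : (n : ℝ) * (1 / (2 * ((n : ℝ) + 1))) ≤ 1 / 2 := by
      rw [mul_one_div, div_le_iff₀ (by positivity)]; linarith
    rw [← sub_eq_add_neg] at h1
    linarith
  obtain ⟨b, hb⟩ : BddAbove (range fun k : ℕ => θ ^ k + 2 * (k * θ ^ k)) :=
    ((tendsto_pow_atTop_nhds_zero_of_lt_one hθ0.le hθ1).add
      ((tendsto_self_mul_const_pow_of_lt_one hθ0.le hθ1).const_mul 2)).bddAbove_range
  let q : List ι → Seminorm ℝ X := fun l =>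
    (normSeminorm ℝ X).comp ((θ ^ l.length • U P l : X →L[ℝ] X) : X →ₗ[ℝ] X)
  have hq : ∀ l z, q l z = θ ^ l.length * ‖U P l z‖ := fun l z => by
    simp [q, norm_smul, abs_of_pos hθ0]
  obtain ⟨Z, i1, i2, e, he1, he2⟩ := exists_renorm q 1 b [] (fun z => by simp [hq, U_nil])
    zero_le_one (fun l z => by
      rw [hq]
      have h1 := (U_bound hn hc _ l rfl z).1
      have h2 : ‖U P l z‖ ≤ ‖U P l z - z‖ + ‖z‖ := by simpa using norm_add_le (U P l z - z) z
      have h3 : θ ^ l.length + 2 * (l.length * θ ^ l.length) ≤ b := hb ⟨l.length, rfl⟩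
      have h4 : 0 < θ ^ l.length := by positivity
      calc θ ^ l.length * ‖U P l z‖ ≤ θ ^ l.length * (2 * l.length * ‖z‖ + ‖z‖) := by
            gcongr; linarith
        _ = (θ ^ l.length + 2 * (l.length * θ ^ l.length)) * ‖z‖ := by ring
        _ ≤ b * ‖z‖ := by gcongr)
  refine ⟨Z, i1, i2, e, fun l hl z => he2 _ _ (fun l' => ?_)⟩
  have h1 := he1 (l' ++ l) z
  rw [hq, U_append, List.length_append, hl, pow_add] at h1
  rw [hq]
  have h2 : 0 ≤ θ ^ l'.length * ‖U P l' (U P l z)‖ := by positivity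
  nlinarith

end signs

section tree

variable {ι : Type u}

/-- Sums along the branches of the tree of lists. -/
def brSum {M : Type u} [AddCommGroup M] (v : List ι → M) : List ι → M
  | [] => 0
  | i :: t => v (i :: t) + brSum v t

/-- Alternating sums along the branches of the tree of lists. -/
def brAlt {M : Type u} [AddCommGroup M] (v : List ι → M) : List ι → M
  | [] => 0
  | i :: t => v (i :: t) - brAlt v t

variable {v : List ι → X} {f : List ι → X →L[ℝ] ℝ}

open Classical in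
lemma brSum_apply (h1 : ∀ t, f t (v t) = 1) (h0 : ∀ s t, s ≠ t → f s (v t) = 0) (s t : List ι)
    (ht : t ≠ []) : brSum f s (v t) = if t <:+ s then 1 else 0 := by
  induction s with
  | nil => simp [brSum, ht]
  | cons i s ih =>
    rw [brSum, add_apply, ih]
    by_cases h : t = i :: s
    · subst h
      have : ¬ (i :: s) <:+ s := fun h => by simpa using h.length_le
      simp [h1, this]
    · rw [h0 _ _ (Ne.symm h), zero_add]
      simp [List.suffix_cons_iff, h]

lemma brSum_brSum (h1 : ∀ t, f t (v t) = 1) (h0 : ∀ s t, s ≠ t → f s (v t) = 0) (s t : List ι)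
    (hts : t <:+ s) : brSum f s (brSum v t) = t.length := by
  induction t with
  | nil => simp [brSum]
  | cons i t ih =>
    rw [brSum, map_add, brSum_apply h1 h0 _ _ (List.cons_ne_nil _ _), if_pos hts,
      ih ((List.suffix_cons i t).trans hts), List.length_cons]
    push_cast; ring

lemma brSum_brAlt (h1 : ∀ t, f t (v t) = 1) (h0 : ∀ s t, s ≠ t → f s (v t) = 0) (s t : List ι) :
    |brSum f s (brAlt v t)| ≤ 1 ∧ (t <:+ s → 0 ≤ brSum f s (brAlt v t)) := by
  induction t with
  | nil => simp [brAlt]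
  | cons i t ih =>
    rw [brAlt, map_sub, brSum_apply h1 h0 _ _ (List.cons_ne_nil _ _)]
    split_ifs with h
    · have h2 := ih.2 ((List.suffix_cons i t).trans h)
      have h3 := abs_le.1 ih.1
      exact ⟨abs_le.2 ⟨by linarith, by linarith⟩, fun _ => by linarith⟩
    · exact ⟨by simpa using ih.1, fun h' => absurd h' h⟩

lemma norm_brAlt (hv : ∀ t, ‖v t‖ ≤ 1) (t : List ι) : ‖brAlt v t‖ ≤ t.length := by
  induction t with
  | nil => simp [brAlt]
  | cons i t ih =>
    rw [brAlt, List.length_cons]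
    have := norm_sub_le (v (i :: t)) (brAlt v t)
    have := hv (i :: t)
    push_cast; linarith

lemma abs_brSum (hf : ∀ t z, |f t z| ≤ 2 * ‖z‖) (t : List ι) (z : X) :
    |brSum f t z| ≤ 2 * t.length * ‖z‖ := by
  induction t with
  | nil => simp [brSum]
  | cons i t ih =>
    rw [brSum, add_apply, List.length_cons]
    have := abs_add_le (f (i :: t) z) (brSum f t z)
    have := hf (i :: t) z
    push_cast; linarith

lemma exists_norm_two (h1 : ∀ t, f t (v t) = 1) (h0 : ∀ s t, s ≠ t → f s (v t) = 0)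
    (hv : ∀ t, ‖v t‖ ≤ 1) (hf : ∀ t z, |f t z| ≤ 2 * ‖z‖) (n : ℕ) :
    ∃ (Y : Type u) (_ : NormedAddCommGroup Y) (_ : NormedSpace ℝ Y) (e : X ≃L[ℝ] Y),
      ∀ t : List ι, t.length = n → (n : ℝ) ≤ ‖e (brSum v t)‖ ∧ ‖e (brAlt v t)‖ ≤ 1 := by
  have hn0 : (0 : ℝ) ≤ n := Nat.cast_nonneg n
  let q : Option {t : List ι // t.length = n} → Seminorm ℝ X := fun o =>
    match o with
    | none => (normSeminorm ℝ X).comp ((1 / ((n : ℝ) + 1)) • LinearMap.id)
    | some t => (normSeminorm ℝ ℝ).comp ((brSum f t.1 : X →L[ℝ] ℝ) : X →ₗ[ℝ] ℝ)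
  have hq0 : ∀ z, q none z = 1 / ((n : ℝ) + 1) * ‖z‖ := fun z => by
    have : (0 : ℝ) < n + 1 := by positivity
    simp [q, norm_smul, abs_of_pos this]
  have hq1 : ∀ t z, q (some t) z = |brSum f t.1 z| := fun t z => by simp [q]
  have hδ : 1 / ((n : ℝ) + 1) ≤ 1 := by
    rw [div_le_one (by positivity)]; linarith
  obtain ⟨Y, i1, i2, e, he1, he2⟩ := exists_renorm q (n + 1) (2 * n + 1) none
    (fun z => by rw [hq0]; field_simp; rfl) (by positivity) (fun o z => by
      have := norm_nonneg z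
      rcases o with _ | t
      · rw [hq0]; nlinarith
      · have h := abs_brSum hf t.1 z
        rw [t.2] at h
        rw [hq1]; nlinarith)
  refine ⟨Y, i1, i2, e, fun t ht => ⟨?_, he2 _ _ (fun o => ?_)⟩⟩
  · have h := he1 (some ⟨t, ht⟩) (brSum v t)
    rw [hq1, brSum_brSum h1 h0 _ _ (List.suffix_refl t), ht, abs_of_nonneg hn0] at h
    exact h
  · rcases o with _ | s
    · have h := norm_brAlt hv t
      rw [ht] at h
      rw [hq0, one_div, inv_mul_le_iff₀ (by positivity)]
      linarith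
    · rw [hq1]; exact (brSum_brAlt h1 h0 _ _).1

end tree

lemma game {ι : Type u} [LinearOrder ι] {P : ι → X →L[ℝ] X} (hn : ∀ i z, ‖P i z‖ ≤ ‖z‖)
    (hc : ∀ i j, i ≤ j → ∀ z, P i (P j z) = P i z ∧ P j (P i z) = P i z)
    (happ : ∀ z, ∀ ε > 0, ∃ i, ∀ j, i ≤ j → ‖z - P j z‖ ≤ ε) (w : List ι → X)
    (htail : ∀ (t : List ι) (j : ι), ∃ i, P j (w (i :: t)) = 0) (n : ℕ) :
    ∀ ε > 0, ∃ t l : List ι, t.length = n ∧ l.length = n ∧
      ‖U P l (brAlt w t) - brSum w t‖ ≤ ε := by
  induction n with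
  | zero => intro ε hε; exact ⟨[], [], rfl, rfl, by simpa [brAlt, brSum] using hε.le⟩
  | succ n ih =>
    intro ε hε
    obtain ⟨t, l, ht, hl, h⟩ := ih (ε / 4) (by positivity)
    obtain ⟨i₀, hi₀⟩ := happ (brSum w t) (ε / 8) (by positivity)
    obtain ⟨j, hj⟩ : ∃ j, ∀ i ∈ i₀ :: l, i ≤ j := by
      classical
      obtain ⟨m, -, hmax⟩ := (i₀ :: l).toFinset.exists_max_image id ⟨i₀, by simp⟩
      exact ⟨m, fun i hi => hmax i (List.mem_toFinset.2 hi)⟩
    obtain ⟨i, hi⟩ := htail t j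
    refine ⟨i :: t, j :: l, by simp [ht], by simp [hl], ?_⟩
    have h1 : U P l (w (i :: t)) = w (i :: t) := U_fix (fun k hk => by
      rw [← (hc k j (hj k (List.mem_cons_of_mem _ hk)) _).1, hi, map_zero])
    have h2 := hi₀ j (hj i₀ List.mem_cons_self)
    set a := U P l (brAlt w t) - brSum w t with ha
    set s := brSum w t with hs
    have e : U P (j :: l) (brAlt w (i :: t)) - brSum w (i :: t) =
        (2 : ℝ) • P j a - a - (2 : ℝ) • (s - P j s) := by
      rw [U_cons, brAlt, brSum, map_sub, h1, map_sub, hi, ha, map_sub, ← hs]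
      simp only [two_smul]
      abel
    rw [e]
    have h3 := norm_sub_le ((2 : ℝ) • P j a - a) ((2 : ℝ) • (s - P j s))
    have h4 := norm_sub_le ((2 : ℝ) • P j a) a
    rw [norm_smul, Real.norm_two] at h3 h4
    have h5 := hn j a
    linarith

lemma map_brSum {ι : Type u} (S : X →L[ℝ] X) (v : List ι → X) (t : List ι) :
    brSum (fun s => S (v s)) t = S (brSum v t) := by
  induction t with
  | nil => simp [brSum]
  | cons i t ih => rw [brSum, brSum, ih, map_add]

lemma map_brAlt {ι : Type u} (S : X →L[ℝ] X) (v : List ι → X) (t : List ι) :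
    brAlt (fun s => S (v s)) t = S (brAlt v t) := by
  induction t with
  | nil => simp [brAlt]
  | cons i t ih => rw [brAlt, brAlt, ih, map_sub]

theorem main_emb [CompleteSpace X] (hns : ¬ TopologicalSpace.SeparableSpace X) {K : Set X}
    (hK : IsCompact ((toWeakSpace ℝ X) '' K))
    (hd : Dense ((Submodule.span ℝ K : Submodule ℝ X) : Set X)) (C : ℝ) :
    ∃ (Y : Type u) (_ : NormedAddCommGroup Y) (_ : NormedSpace ℝ Y)
      (Z : Type u) (_ : NormedAddCommGroup Z) (_ : NormedSpace ℝ Z),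
      Nonempty (X ≃L[ℝ] Y) ∧ Nonempty (X ≃L[ℝ] Z) ∧
      ∀ (T : Y →L[ℝ] Z) (b : ℝ), 0 ≤ b → (∀ y, ‖y‖ ≤ b * ‖T y‖) → C < ‖T‖ * b := by
  obtain ⟨ι, _, _, P, x, f, hn, hc, happ, hx, hf, h1, h0, htail⟩ := exists_chain hns hK hd
  obtain ⟨c⟩ : Nonempty (List ι ≃ ι) := Cardinal.eq.1 (mk_list_eq_mk ι)
  obtain ⟨n, hnC⟩ := exists_nat_gt (2 * C + 1)
  obtain ⟨Y, i1, i2, eY, hY⟩ := exists_norm_two (v := fun t => x (c t)) (f := fun t => f (c t))
    (fun t => h1 _) (fun s t h => h0 _ _ (c.injective.ne h)) (fun t => hx _) (fun t z => hf _ z) n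
  obtain ⟨Z, j1, j2, eZ, hZ⟩ := exists_norm_one hn hc n
  refine ⟨Y, i1, i2, Z, j1, j2, ⟨eY⟩, ⟨eZ⟩, fun T b hb0 hT => ?_⟩
  let S : X →L[ℝ] X := (eZ.symm : Z →L[ℝ] X).comp (T.comp (eY : X →L[ℝ] Y))
  have hS : ∀ z, eZ (S z) = T (eY z) := fun z => by simp [S]
  set a := ‖T‖ with ha
  set m := ‖(eZ : X →L[ℝ] Z)‖ with hm
  have ha0 : 0 ≤ a := norm_nonneg _
  have hm0 : 0 ≤ m := norm_nonneg _
  obtain ⟨t, l, ht, hl, h⟩ := game hn hc happ (fun t => S (x (c t))) (fun t j => by
    by_contra hcon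
    push Not at hcon
    have hinj : Function.Injective
        (fun i => (⟨c (i :: t), hcon i⟩ : {i | P j (S (x i)) ≠ 0})) := fun i i' h => by
      simpa using h
    exact absurd (mk_le_of_injective hinj) (not_le.2 (htail S j))) n (1 / (b * m + 1))
      (by positivity)
  rw [map_brSum S (fun t => x (c t)), map_brAlt S (fun t => x (c t))] at h
  obtain ⟨hY1, hY2⟩ := hY t ht
  set u := brSum (fun t => x (c t)) t
  set u' := brAlt (fun t => x (c t)) t
  have k1 : ‖eY u‖ ≤ b * ‖eZ (S u)‖ := by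
    rw [hS]
    exact hT _
  have k2 : ‖eZ (S u')‖ ≤ a := by
    rw [hS]
    have := T.le_opNorm (eY u')
    calc ‖T (eY u')‖ ≤ a * ‖eY u'‖ := this
      _ ≤ a * 1 := by gcongr
      _ = a := mul_one a
  have k3 := hZ l hl (S u')
  have k4 : ‖eZ (U P l (S u') - S u)‖ ≤ m * (1 / (b * m + 1)) :=
    ((eZ : X →L[ℝ] Z).le_opNorm _).trans (by gcongr)
  have k5 : ‖eZ (S u)‖ ≤ ‖eZ (U P l (S u'))‖ + ‖eZ (U P l (S u') - S u)‖ := by
    have := norm_sub_le (eZ (U P l (S u'))) (eZ (U P l (S u') - S u))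
    rwa [← map_sub, sub_sub_cancel] at this
  have k6 : b * (m * (1 / (b * m + 1))) ≤ 1 := by
    rw [← mul_assoc, mul_one_div, div_le_one (by positivity)]; linarith
  have k7 : b * ‖eZ (S u)‖ ≤ b * (2 * a + m * (1 / (b * m + 1))) := by
    gcongr; linarith
  nlinarith

theorem main [CompleteSpace X] (hns : ¬ TopologicalSpace.SeparableSpace X) {K : Set X}
    (hK : IsCompact ((toWeakSpace ℝ X) '' K))
    (hd : Dense ((Submodule.span ℝ K : Submodule ℝ X) : Set X)) (C : ℝ) :
    ∃ (Y : Type u) (_ : NormedAddCommGroup Y) (_ : NormedSpace ℝ Y)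
      (Z : Type u) (_ : NormedAddCommGroup Z) (_ : NormedSpace ℝ Z),
      Nonempty (X ≃L[ℝ] Y) ∧ Nonempty (X ≃L[ℝ] Z) ∧
      ∀ T : Y ≃L[ℝ] Z, C < ‖(T : Y →L[ℝ] Z)‖ * ‖(T.symm : Z →L[ℝ] Y)‖ := by
  obtain ⟨Y, i1, i2, Z, j1, j2, hY, hZ, h⟩ := main_emb hns hK hd C
  refine ⟨Y, i1, i2, Z, j1, j2, hY, hZ, fun T => h _ _ (norm_nonneg _) (fun y => ?_)⟩
  simpa using (T.symm : Z →L[ℝ] Y).le_opNorm (T y)

end Pool.Agent.Work.MP_11e589_an
end
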